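import Pool.Agent.R121.ShufflePoset

set_option autoImplicit false

/-!
# The major index on the 123-avoiding linear extensions of `NE_{s,2}`

A linear extension of a product of a 2-chain and an `s`-chain is a shuffle of the two `s`-chains and
corresponds to a Catalan word `w`. Both chains are decreasing, so that `123` is avoided, and
`maj π = s(2s-1) - (the sum of the positions of the high peaks of w)`. The sum of the positions of the
high peaks has the same distribution as the major index on Catalan words (both satisfy the same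
recursion), and `c_s(q)` is palindromic.
-/

namespace Pool.Agent.Results.MP_1fed52_co.MajNEs2

open Finset Polynomial Pool.Agent.R121.Sh

/-- The order of `NE_{s,t}` on `{0, …, st-1}` (the label of the problem is `x + 1`): if
`x = (i-1)t + (j-1)` and `y = (i'-1)t + (j'-1)` then `x ⊴ y` iff `i' ≤ i` and `j' ≤ j`. -/
def NEle (t x y : ℕ) : Prop := y / t ≤ x / t ∧ y % t ≤ x % t

/-- the chains -/
def γ (s : ℕ) (b : Bool) (c : ℕ) : ℕ := if b = true then 2 * s - 2 - 2 * c else 2 * s - 1 - 2 * c

lemma chains (s : ℕ) : Chains s (γ s) (NEle 2) where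
  lt := by
    intro b c hc
    unfold γ
    split_ifs <;> omega
  surj := by
    intro x hx
    by_cases h : x % 2 = 0
    · exact ⟨true, s - 1 - x / 2, by omega, by simp [γ]; omega⟩
    · exact ⟨false, s - 1 - x / 2, by omega, by simp [γ]; omega⟩
  inj := by
    intro b c b' c' hc hc' h
    unfold γ at h
    cases b <;> cases b' <;> simp at h ⊢ <;> omega
  rel := by
    intro b c b' c' hc hc'
    unfold γ NEle
    cases b <;> cases b' <;> simp <;> omega

lemma maj_add (s : ℕ) (π : Equiv.Perm (Fin (2 * s))) (hπ : LE (NEle 2) π) :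
    maj (fun i => (π i : ℕ)) + hps (word s (γ s) π) = s * (2 * s - 1) := by
  rw [← sum_idx (2 * s) s rfl]
  unfold maj hps
  rw [← sum_add_distrib]
  apply sum_congr rfl
  intro j _
  by_cases hj : 0 < j.1
  · obtain ⟨a, b, h1, h2, h3, h4⟩ := local_cases (chains s) rfl hπ j hj
    have h0 := cnt_succ (word s (γ s) π) false ⟨j.1 - 1, by omega⟩
    simp only at h0
    have e : j.1 - 1 + 1 = j.1 := by omega
    rw [e, h1] at h0
    rcases h4 with ⟨h5, h6, h7, h8, h9⟩ | ⟨h5, h6, h7, h8, h9⟩ | ⟨h5, h6, h7, h8, h9⟩ |
      ⟨h5, h6, h7, h8, h9⟩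
    · simp only [h5, h6, h7, h8, γ]
      simp
      omega
    · rw [h5] at h0
      simp only [if_true] at h0
      simp only [h5, h6, h7, h8, γ, h0]
      simp only [if_true, true_and]
      simp
      split_ifs <;> omega
    · simp only [h5, h6, h7, h8, γ]
      simp
      omega
    · simp only [h5, h6, h7, h8, γ]
      simp
      omega
  · have : j.1 = 0 := by omega
    simp [this]

open Classical in
/-- For every `s ≥ 1` the generating polynomial of the major index over the `123`-avoiding linear
extensions of `NE_{s,2}` is `q^(s²) c_s(q)`, where `c_s(q)` is the generating polynomial of the major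
index over the Catalan words of length `2s`. -/
theorem result (s : ℕ) (hs : 1 ≤ s) :
    ∑ π ∈ univ.filter (fun π : Equiv.Perm (Fin (2 * s)) => LE (NEle 2) π ∧ Avoids123 π),
      (X : ℤ[X]) ^ maj (fun i => (π i : ℕ)) =
    X ^ (s ^ 2) * ∑ w ∈ univ.filter (fun w : Fin (2 * s) → Bool => Cat w),
      X ^ maj (fun i => (w i).toNat) := by
  apply final (n := s) rfl
  intro K _ q hq f hf
  rw [map_sum]
  simp only [map_pow, hf]
  rw [sum_linExt (chains s) rfl (fun π => Avoids123 π) (fun _ => True)
    (fun π => q ^ maj (fun i => (π i : ℕ)))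
    (fun w => q ^ (s ^ 2 + s * (s - 1)) * q⁻¹ ^ hps w)]
  · rw [← mul_sum]
    simp only [and_true]
    rw [sum_hp q⁻¹ rfl]
  · intro π hπ
    simp only [iff_true]
    apply avoids123 (chains s) rfl hπ
    intro b c c' h1 h2
    unfold γ
    split_ifs <;> omega
  · intro π hπ _
    have h1 := maj_add s π hπ
    have h2 : s ^ 2 + s * (s - 1) = s * (2 * s - 1) := by
      obtain ⟨t, rfl⟩ : ∃ t, s = t + 1 := ⟨s - 1, by omega⟩
      have : 2 * (t + 1) - 1 = 2 * t + 1 := by omega
      rw [this, Nat.add_sub_cancel]
      ring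
    rw [h2, ← h1, pow_add, mul_assoc, ← mul_pow, mul_inv_cancel₀ hq, one_pow, mul_one]

end Pool.Agent.Results.MP_1fed52_co.MajNEs2
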